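import Pool.Agent.H89.MT.Targets

/-!
# Integer shifts (module SHF of MP_34b97f_an)
-/

set_option autoImplicit false

open MeasureTheory ProbabilityTheory Filter Topology Finset

namespace Pool.Agent.H48.MT2

open Pool.Agent.H89.MT

theorem shf_sum (f : ℕ → ℝ) (N : ℕ) : ∑ n ∈ Icc 1 N, f n = ∑ k ∈ range N, f (k + 1) := by
  induction N with
  | zero => simp
  | succ N ih => rw [Finset.sum_Icc_succ_top (by omega), ih, Finset.sum_range_succ]

theorem shf_abs (x : I1) : |(x : ℝ)| ≤ 1 := abs_le.mpr ⟨x.2.1, x.2.2⟩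

theorem shf_prod (J : Finset ℤ) (x : X) : |∏ j ∈ J, (x j : ℝ)| ≤ 1 := by
  rw [Finset.abs_prod]
  exact Finset.prod_le_one (fun _ _ => abs_nonneg _) fun j _ => shf_abs (x j)

/-- a shift by `t` changes the harmonic sum of a function bounded by `1` by at most `3 t` -/
theorem shf_diff (F : ℕ → ℝ) (hF : ∀ n, |F n| ≤ 1) (t N : ℕ) :
    |∑ n ∈ Icc 1 N, F n / n - ∑ n ∈ Icc 1 N, F (n + t) / n| ≤ 3 * t := by
  rw [shf_sum, shf_sum]
  have ha : ∀ k : ℕ, |F (k + 1) / ((k + 1 : ℕ) : ℝ)| ≤ 1 := by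
    intro k
    rw [abs_div, div_le_one (by positivity)]
    refine (hF _).trans ?_
    rw [abs_of_pos (by positivity)]
    push_cast
    linarith [(Nat.cast_nonneg k : (0 : ℝ) ≤ k)]
  have hb : ∀ k : ℕ, 1 / ((k : ℝ) + 1) ≤ 1 := by
    intro k
    rw [div_le_one (by positivity)]
    linarith [(Nat.cast_nonneg k : (0 : ℝ) ≤ k)]
  have e1 := Finset.sum_range_add (fun k => F (k + 1) / ((k + 1 : ℕ) : ℝ)) t N
  have e2 := Finset.sum_range_add (fun k => F (k + 1) / ((k + 1 : ℕ) : ℝ)) N t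
  have e3 := Finset.sum_range_add (fun k : ℕ => 1 / ((k : ℝ) + 1)) t N
  have e4 := Finset.sum_range_add (fun k : ℕ => 1 / ((k : ℝ) + 1)) N t
  rw [add_comm N t] at e2 e4
  have h1 : |∑ x ∈ range t, F (x + 1) / ((x + 1 : ℕ) : ℝ)| ≤ t := by
    refine (Finset.abs_sum_le_sum_abs _ _).trans ?_
    refine (Finset.sum_le_sum fun x _ => ha x).trans ?_
    simp
  have h2 : |∑ x ∈ range t, F (N + x + 1) / ((N + x + 1 : ℕ) : ℝ)| ≤ t := by
    refine (Finset.abs_sum_le_sum_abs _ _).trans ?_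
    refine (Finset.sum_le_sum fun x _ => ha (N + x)).trans ?_
    simp
  have h3 : |∑ m ∈ range N, F (m + 1 + t) / ((m + 1 : ℕ) : ℝ)
      - ∑ m ∈ range N, F (t + m + 1) / ((t + m + 1 : ℕ) : ℝ)| ≤ t := by
    rw [← Finset.sum_sub_distrib]
    refine (Finset.abs_sum_le_sum_abs _ _).trans ?_
    have hterm : ∀ m ∈ range N, |F (m + 1 + t) / ((m + 1 : ℕ) : ℝ)
        - F (t + m + 1) / ((t + m + 1 : ℕ) : ℝ)| ≤
        1 / ((m : ℝ) + 1) - 1 / (((t + m : ℕ) : ℝ) + 1) := by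
      intro m _
      have he : m + 1 + t = t + m + 1 := by ring
      rw [he]
      have hs : F (t + m + 1) / ((m + 1 : ℕ) : ℝ) - F (t + m + 1) / ((t + m + 1 : ℕ) : ℝ) =
          F (t + m + 1) * (1 / ((m : ℝ) + 1) - 1 / (((t + m : ℕ) : ℝ) + 1)) := by
        push_cast
        ring
      rw [hs, abs_mul]
      have hpos : 0 ≤ 1 / ((m : ℝ) + 1) - 1 / (((t + m : ℕ) : ℝ) + 1) := by
        rw [sub_nonneg]
        apply one_div_le_one_div_of_le (by positivity)
        push_cast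
        linarith [(Nat.cast_nonneg t : (0 : ℝ) ≤ t)]
      rw [abs_of_nonneg hpos]
      exact mul_le_of_le_one_left hpos (hF _)
    refine (Finset.sum_le_sum hterm).trans ?_
    rw [Finset.sum_sub_distrib]
    have h5 : ∑ x ∈ range t, 1 / ((x : ℝ) + 1) ≤ t := by
      refine (Finset.sum_le_sum fun x _ => hb x).trans ?_
      simp
    have h6 : 0 ≤ ∑ x ∈ range t, 1 / (((N + x : ℕ) : ℝ) + 1) :=
      Finset.sum_nonneg fun x _ => by positivity
    linarith
  have hfin : ∑ k ∈ range N, F (k + 1) / ((k + 1 : ℕ) : ℝ)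
      - ∑ k ∈ range N, F (k + 1 + t) / ((k + 1 : ℕ) : ℝ) =
      ∑ x ∈ range t, F (x + 1) / ((x + 1 : ℕ) : ℝ)
      - ∑ x ∈ range t, F (N + x + 1) / ((N + x + 1 : ℕ) : ℝ)
      - (∑ m ∈ range N, F (m + 1 + t) / ((m + 1 : ℕ) : ℝ)
        - ∑ m ∈ range N, F (t + m + 1) / ((t + m + 1 : ℕ) : ℝ)) := by
    linarith
  rw [hfin]
  rw [abs_le] at h1 h2 h3 ⊢
  constructor <;> linarith [h1.1, h1.2, h2.1, h2.2, h3.1, h3.2]

theorem shf_corr (u : ℕ → I1) (J : Finset ℤ) (t : ℕ) (ht : ∀ j ∈ J, j.natAbs ≤ t) (m : ℕ)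
    (hm : 1 ≤ m) :
    ∏ j ∈ J, (pt u (m + t) j : ℝ) = corr u (J.image fun j : ℤ => (j + t).toNat) m := by
  unfold corr
  rw [Finset.prod_image]
  · apply Finset.prod_congr rfl
    intro j hj
    have h1 := ht j hj
    have h2 : 0 < ((m + t : ℕ) : ℤ) + j := by omega
    have h3 : (((m + t : ℕ) : ℤ) + j).toNat = m + (j + t).toNat := by omega
    unfold pt
    rw [if_pos h2, h3]
  · intro a ha b hb hab
    have h1 := ht a ha
    have h2 := ht b hb
    simp only at hab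
    omega

theorem pf_SHF : T_SHF := by
  intro u hu J hJ
  obtain ⟨t, ht⟩ : ∃ t : ℕ, ∀ j ∈ J, j.natAbs ≤ t :=
    ⟨J.sup Int.natAbs, fun j hj => Finset.le_sup (f := Int.natAbs) hj⟩
  have h0 := hu (J.image fun j : ℤ => (j + t).toNat) (hJ.image _)
  have hdiff : Tendsto (fun N => lavg N (fun n => ∏ j ∈ J, (pt u n j : ℝ)) -
      lavg N (corr u (J.image fun j : ℤ => (j + t).toNat))) atTop (𝓝 0) := by
    have hlog : Tendsto (fun N : ℕ => (3 * t : ℝ) / Real.log N) atTop (𝓝 0) :=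
      Tendsto.const_div_atTop (Real.tendsto_log_atTop.comp tendsto_natCast_atTop_atTop) _
    refine squeeze_zero_norm ?_ hlog
    intro N
    have hc : ∑ n ∈ Icc 1 N, corr u (J.image fun j : ℤ => (j + t).toNat) n / n =
        ∑ n ∈ Icc 1 N, (∏ j ∈ J, (pt u (n + t) j : ℝ)) / n := by
      apply Finset.sum_congr rfl
      intro n hn
      rw [shf_corr u J t ht n (Finset.mem_Icc.mp hn).1]
    unfold lavg
    rw [hc, ← sub_div, Real.norm_eq_abs, abs_div, abs_of_nonneg (Real.log_natCast_nonneg N)]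
    apply div_le_div_of_nonneg_right _ (Real.log_natCast_nonneg N)
    exact shf_diff (fun n => ∏ j ∈ J, (pt u n j : ℝ)) (fun n => shf_prod J _) t N
  have := hdiff.add h0
  simpa using this

end Pool.Agent.H48.MT2
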